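import Pool.Agent.H21.L.R_seed8.W352.ChAbs.Tor

/-! Primes of higher degree, and the limit. -/

set_option autoImplicit false
set_option linter.all false
set_option linter.deprecated false

namespace Pool.Agent.W352.ChAbs

open NumberField Filter Topology IsDedekindDomain
open Pool.Agent.W401.Cheb

section analytic

/-- Chebyshev: `√N / π(N) → 0` in a convenient form -/
theorem sqrt_div_pi : Tendsto (fun N : ℕ => (Nat.sqrt N + 1 : ℝ) / (Nat.primeCounting N : ℝ))
    atTop (𝓝 0) := by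
  have hlog : Tendsto (fun N : ℕ => Real.log N / (N : ℝ) ^ (1 / 2 : ℝ)) atTop (𝓝 0) := by
    have h := (isLittleO_log_rpow_atTop (r := 1 / 2) (by norm_num)).tendsto_div_nhds_zero
    exact h.comp tendsto_natCast_atTop_atTop
  have hlog1 : Tendsto (fun N : ℕ => Real.log (N + 1) / (N : ℝ)) atTop (𝓝 0) := by
    have h := (Real.isLittleO_log_id_atTop).tendsto_div_nhds_zero
    have h2 : Tendsto (fun N : ℕ => Real.log ((N + 1 : ℕ) : ℝ) / (((N + 1 : ℕ) : ℝ))) atTop (𝓝 0) :=
      h.comp (tendsto_natCast_atTop_atTop.comp (tendsto_add_atTop_nat 1))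
    have h3 : Tendsto (fun N : ℕ => 2 * (Real.log ((N + 1 : ℕ) : ℝ) / (((N + 1 : ℕ) : ℝ)))) atTop
        (𝓝 0) := by simpa using h2.const_mul 2
    refine squeeze_zero' ?_ ?_ h3
    · filter_upwards with N
      exact div_nonneg (Real.log_nonneg (by linarith [(Nat.cast_nonneg N : (0:ℝ) ≤ N)]))
        (Nat.cast_nonneg N)
    · filter_upwards [eventually_ge_atTop 1] with N hN
      have hN' : (1 : ℝ) ≤ N := by exact_mod_cast hN
      push_cast
      rw [mul_div_assoc', div_le_div_iff₀ (by linarith) (by linarith)]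
      have : 0 ≤ Real.log ((N : ℝ) + 1) := Real.log_nonneg (by linarith)
      nlinarith
  have hmain : Tendsto (fun N : ℕ => (4 / Real.log 2) * (Real.log N / (N : ℝ) ^ (1 / 2 : ℝ))) atTop
      (𝓝 0) := by simpa using hlog.const_mul (4 / Real.log 2)
  have hl2 : 0 < Real.log 2 := Real.log_pos (by norm_num)
  refine squeeze_zero' ?_ ?_ hmain
  · filter_upwards with N
    positivity
  · have h1 := (hlog1.eventually (gt_mem_nhds (show (0 : ℝ) < Real.log 2 / 2 by positivity)))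
    filter_upwards [eventually_ge_atTop 2, h1] with N hN h1
    have hN' : (2 : ℝ) ≤ N := by exact_mod_cast hN
    have hNpos : (0 : ℝ) < N := by linarith
    have hlogN : 0 < Real.log N := Real.log_pos (by linarith)
    rw [div_lt_iff₀ hNpos] at h1
    have hpsi := Chebyshev.psi_ge N
    have hpi := Chebyshev.psi_le_primeCounting_mul_log N
    have hlow : (N : ℝ) * (Real.log 2 / 2) ≤ (Nat.primeCounting N : ℝ) * Real.log N := by
      linarith
    have hpipos : (0 : ℝ) < Nat.primeCounting N := by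
      by_contra hcon
      have : (Nat.primeCounting N : ℝ) * Real.log N ≤ 0 :=
        mul_nonpos_of_nonpos_of_nonneg (not_lt.mp hcon) hlogN.le
      have : 0 < (N : ℝ) * (Real.log 2 / 2) := by positivity
      linarith
    have hsq : (Nat.sqrt N + 1 : ℝ) ≤ 2 * (N : ℝ) ^ (1 / 2 : ℝ) := by
      have h3 : (Nat.sqrt N : ℝ) ≤ Real.sqrt N := Real.nat_sqrt_le_real_sqrt
      rw [← Real.sqrt_eq_rpow]
      have h4 : 1 ≤ Real.sqrt N := by
        rw [Real.le_sqrt (by norm_num) (by linarith)]; linarith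
      linarith
    have hrp : (0 : ℝ) < (N : ℝ) ^ (1 / 2 : ℝ) := by positivity
    have hrr : (N : ℝ) ^ (1 / 2 : ℝ) * (N : ℝ) ^ (1 / 2 : ℝ) = N := by
      rw [← Real.rpow_add hNpos]; norm_num
    rw [div_le_iff₀ hpipos]
    refine hsq.trans ?_
    rw [div_mul_div_comm, div_mul_eq_mul_div, le_div_iff₀ (by positivity)]
    calc 2 * (N : ℝ) ^ (1 / 2 : ℝ) * (Real.log 2 * (N : ℝ) ^ (1 / 2 : ℝ))
        = 4 * (((N : ℝ) ^ (1 / 2 : ℝ) * (N : ℝ) ^ (1 / 2 : ℝ)) * (Real.log 2 / 2)) := by ring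
      _ = 4 * ((N : ℝ) * (Real.log 2 / 2)) := by rw [hrr]
      _ ≤ 4 * ((Nat.primeCounting N : ℝ) * Real.log N) := by linarith
      _ = _ := by ring

theorem const_div_pi (c : ℝ) : Tendsto (fun N : ℕ => c / (Nat.primeCounting N : ℝ))
    atTop (𝓝 0) := by
  have : Tendsto (fun N : ℕ => (Nat.primeCounting N : ℝ)) atTop atTop :=
    tendsto_natCast_atTop_atTop.comp Nat.tendsto_primeCounting
  exact this.const_div_atTop c

end analytic

section prim

variable {K : Type} [Field K] [NumberField K]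

theorem finite_le (N : ℕ) : {v : HeightOneSpectrum (𝓞 K) | Ideal.absNorm v.asIdeal ≤ N}.Finite := by
  have h := Ideal.finite_setOfPred_absNorm_le (S := 𝓞 K) N
  refine Set.Finite.of_finite_image (f := HeightOneSpectrum.asIdeal) (h.subset ?_) ?_
  · rintro I ⟨v, hv, rfl⟩
    exact hv
  · intro v _ w _ h
    exact HeightOneSpectrum.ext h

theorem over_le (m : ℕ) (hm : m.Prime) :
    {v : HeightOneSpectrum (𝓞 K) | (m : 𝓞 K) ∈ v.asIdeal}.Finite ∧
    {v : HeightOneSpectrum (𝓞 K) | (m : 𝓞 K) ∈ v.asIdeal}.ncard ≤ Module.finrank ℚ K := by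
  classical
  have hm0 : (m : ℤ) ≠ 0 := by exact_mod_cast hm.ne_zero
  haveI hmax : (Ideal.span {(m : ℤ)}).IsMaximal :=
    PrincipalIdealRing.isMaximal_of_irreducible (Nat.prime_iff_prime_int.mp hm).irreducible
  have hne : Ideal.span {(m : ℤ)} ≠ ⊥ := by
    rw [Ne, Ideal.span_singleton_eq_bot]; exact hm0
  have hsub : HeightOneSpectrum.asIdeal '' {v : HeightOneSpectrum (𝓞 K) | (m : 𝓞 K) ∈ v.asIdeal} ⊆
      (IsDedekindDomain.primesOverFinset (Ideal.span {(m : ℤ)}) (𝓞 K) : Set (Ideal (𝓞 K))) := by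
    rintro I ⟨v, hv, rfl⟩
    rw [Finset.mem_coe, IsDedekindDomain.mem_primesOverFinset_iff hne]
    refine ⟨v.isPrime, ⟨?_⟩⟩
    apply hmax.eq_of_le
    · haveI := v.isPrime
      exact (Ideal.comap_isPrime (algebraMap ℤ (𝓞 K)) v.asIdeal).ne_top
    · rw [Ideal.span_le, Set.singleton_subset_iff, SetLike.mem_coe, Ideal.under_def, Ideal.mem_comap]
      simpa using hv
  have hinj : Set.InjOn HeightOneSpectrum.asIdeal
      {v : HeightOneSpectrum (𝓞 K) | (m : 𝓞 K) ∈ v.asIdeal} :=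
    fun v _ w _ h => HeightOneSpectrum.ext h
  refine ⟨Set.Finite.of_finite_image ((Finset.finite_toSet _).subset hsub) hinj, ?_⟩
  rw [← Set.ncard_image_of_injOn hinj]
  refine (Set.ncard_le_ncard hsub (Finset.finite_toSet _)).trans ?_
  rw [Set.ncard_coe_finset]
  exact Ideal.card_primesOverFinset_le_finrank (𝓞 K) ℚ K hne

theorem exists_prime_of (v : HeightOneSpectrum (𝓞 K)) (N : ℕ) (hN : Ideal.absNorm v.asIdeal ≤ N)
    (hnp : ¬ (Ideal.absNorm v.asIdeal).Prime) :
    ∃ m ∈ pr (Nat.sqrt N), (m : 𝓞 K) ∈ v.asIdeal := by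
  haveI : v.asIdeal.IsMaximal := v.isMaximal
  letI := Ideal.Quotient.field v.asIdeal
  haveI : Finite (𝓞 K ⧸ v.asIdeal) := Ideal.finiteQuotientOfFreeOfNeBot _ v.ne_bot
  cases nonempty_fintype (𝓞 K ⧸ v.asIdeal)
  obtain ⟨p, hc⟩ := CharP.exists (𝓞 K ⧸ v.asIdeal)
  obtain ⟨k, hp, hk⟩ := FiniteField.card (𝓞 K ⧸ v.asIdeal) p
  have hN' : Ideal.absNorm v.asIdeal = p ^ (k : ℕ) := by
    rw [Ideal.absNorm_apply, Submodule.cardQuot_apply, ← hk]
    exact Nat.card_eq_fintype_card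
  refine ⟨p, ?_, ?_⟩
  · rw [pr, Finset.mem_filter, Finset.mem_range, Nat.lt_succ_iff, Nat.le_sqrt]
    refine ⟨?_, hp⟩
    have hk2 : 2 ≤ (k : ℕ) := by
      by_contra h
      have : (k : ℕ) = 1 := by have := k.pos; omega
      rw [this, pow_one] at hN'
      exact hnp (hN' ▸ hp)
    calc p * p = p ^ 2 := (sq p).symm
      _ ≤ p ^ (k : ℕ) := Nat.pow_le_pow_right hp.pos hk2
      _ ≤ N := hN' ▸ hN
  · rw [← Ideal.Quotient.eq_zero_iff_mem, map_natCast]
    exact CharP.cast_eq_zero _ _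

open Classical in
/-- the decomposition -/
theorem decomp (P : HeightOneSpectrum (𝓞 K) → Prop) (N : ℕ) : ∃ R : ℕ,
    R ≤ Module.finrank ℚ K * (Nat.sqrt N + 1) ∧
    Nat.card {v : HeightOneSpectrum (𝓞 K) // Ideal.absNorm v.asIdeal ≤ N ∧ P v} =
      ∑ p ∈ pr N, Nat.card {v : HeightOneSpectrum (𝓞 K) // Ideal.absNorm v.asIdeal = p ∧ P v} + R := by
  set T : Set (HeightOneSpectrum (𝓞 K)) := {v | Ideal.absNorm v.asIdeal ≤ N ∧ P v} with hT
  have hTf : T.Finite := (finite_le N).subset (fun v hv => hv.1)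
  set T1 : Set (HeightOneSpectrum (𝓞 K)) := {v ∈ T | (Ideal.absNorm v.asIdeal).Prime} with hT1
  set T2 : Set (HeightOneSpectrum (𝓞 K)) := {v ∈ T | ¬ (Ideal.absNorm v.asIdeal).Prime} with hT2
  have hT1f : T1.Finite := hTf.subset (fun v hv => hv.1)
  have hT2f : T2.Finite := hTf.subset (fun v hv => hv.1)
  refine ⟨T2.ncard, ?_, ?_⟩
  · have hsub : T2 ⊆ ⋃ m ∈ pr (Nat.sqrt N), {v : HeightOneSpectrum (𝓞 K) | (m : 𝓞 K) ∈ v.asIdeal} := by
      intro v hv
      obtain ⟨m, hm, hm'⟩ := exists_prime_of v N hv.1.1 hv.2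
      exact Set.mem_biUnion hm hm'
    have hfin : (⋃ m ∈ pr (Nat.sqrt N),
        {v : HeightOneSpectrum (𝓞 K) | (m : 𝓞 K) ∈ v.asIdeal}).Finite := by
      apply Set.Finite.biUnion (Finset.finite_toSet _)
      intro m hm
      exact (over_le m (Finset.mem_filter.mp hm).2).1
    calc T2.ncard ≤ _ := Set.ncard_le_ncard hsub hfin
      _ ≤ ∑ m ∈ pr (Nat.sqrt N), {v : HeightOneSpectrum (𝓞 K) | (m : 𝓞 K) ∈ v.asIdeal}.ncard :=
          Finset.set_ncard_biUnion_le _ _
      _ ≤ ∑ m ∈ pr (Nat.sqrt N), Module.finrank ℚ K :=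
          Finset.sum_le_sum fun m hm => (over_le m (Finset.mem_filter.mp hm).2).2
      _ = (pr (Nat.sqrt N)).card * Module.finrank ℚ K := by rw [Finset.sum_const, smul_eq_mul]
      _ ≤ (Nat.sqrt N + 1) * Module.finrank ℚ K := by
          apply Nat.mul_le_mul_right
          calc (pr (Nat.sqrt N)).card ≤ (Finset.range (Nat.sqrt N + 1)).card :=
                Finset.card_filter_le _ _
            _ = _ := Finset.card_range _
      _ = _ := mul_comm _ _
  · have e0 : Nat.card {v : HeightOneSpectrum (𝓞 K) // Ideal.absNorm v.asIdeal ≤ N ∧ P v} = T.ncard :=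
      rfl
    have e1 : T = T1 ∪ T2 := by
      ext v
      simp only [hT1, hT2, Set.mem_union, Set.mem_ofPred_eq]
      tauto
    have e2 : Disjoint T1 T2 := by
      rw [Set.disjoint_left]
      intro v h1 h2
      exact h2.2 h1.2
    rw [e0, e1, Set.ncard_union_eq e2 hT1f hT2f]
    congr 1
    have hT1' : T1.ncard = hT1f.toFinset.card := Set.ncard_eq_toFinset_card T1 hT1f
    rw [hT1', Finset.card_eq_sum_card_fiberwise (f := fun v => Ideal.absNorm v.asIdeal)
      (t := pr N) ?_]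
    · apply Finset.sum_congr rfl
      intro p hp
      have hp' := Finset.mem_filter.mp hp
      have e4 : {v : HeightOneSpectrum (𝓞 K) | Ideal.absNorm v.asIdeal = p ∧ P v} =
          ((hT1f.toFinset.filter (fun v => Ideal.absNorm v.asIdeal = p) :
            Finset (HeightOneSpectrum (𝓞 K))) : Set (HeightOneSpectrum (𝓞 K))) := by
        ext v
        simp only [hT1, hT, Finset.coe_filter, Set.Finite.mem_toFinset, Set.mem_ofPred_eq]
        constructor
        · rintro ⟨rfl, h⟩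
          exact ⟨⟨⟨by have := Finset.mem_range.mp hp'.1; omega, h⟩, hp'.2⟩, rfl⟩
        · rintro ⟨⟨⟨h1, h2⟩, h3⟩, h4⟩
          exact ⟨h4, h2⟩
      have e5 : Nat.card {v : HeightOneSpectrum (𝓞 K) // Ideal.absNorm v.asIdeal = p ∧ P v} =
          {v : HeightOneSpectrum (𝓞 K) | Ideal.absNorm v.asIdeal = p ∧ P v}.ncard := rfl
      rw [e5, e4, Set.ncard_coe_finset]
    · intro v hv
      rw [Finset.mem_coe, Set.Finite.mem_toFinset] at hv
      simp only [pr, Finset.coe_filter, Finset.mem_range, Set.mem_ofPred_eq]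
      exact ⟨Nat.lt_succ_of_le hv.1.1, hv.2⟩

/-- the limit -/
theorem limit {L : Type} [Field L] [NumberField L] (P : HeightOneSpectrum (𝓞 K) → Prop)
    (S : Finset Gal(L/ℚ)) (h D : ℕ) (hh : 0 < h) (hD : 0 < D)
    (hcheb : ∀ g : Gal(L/ℚ),
      Tendsto (fun N : ℕ => (∑ p ∈ pr N, (xp L g p : ℝ)) / (Nat.primeCounting N : ℝ)) atTop (𝓝 1))
    (hc : ∀ p : ℕ, p.Prime → ¬ p ∣ D →
      h * Nat.card {v : HeightOneSpectrum (𝓞 K) // Ideal.absNorm v.asIdeal = p ∧ P v} =
        ∑ g ∈ S, xp L g p) :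
    Tendsto (dens P) atTop (𝓝 ((S.card : ℝ) / (h : ℝ))) := by
  classical
  set A : ℕ → ℕ := fun p => Nat.card {v : HeightOneSpectrum (𝓞 K) // Ideal.absNorm v.asIdeal = p ∧ P v}
    with hA
  set B : ℕ → ℝ := fun p => (∑ g ∈ S, (xp L g p : ℝ)) / h with hB
  set E : ℕ → ℝ := fun p => (A p : ℝ) - B p with hE
  choose R hR1 hR2 using decomp P
  have hE0 : ∀ p, p.Prime → ¬ p ∣ D → E p = 0 := by
    intro p hp hpD
    have := hc p hp hpD
    have h' : (h : ℝ) * (A p : ℝ) = ∑ g ∈ S, (xp L g p : ℝ) := by exact_mod_cast this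
    rw [hE]
    simp only [hB]
    rw [← h', mul_div_cancel_left₀ _ (by exact_mod_cast hh.ne'), sub_self]
  -- the exceptional part is eventually constant
  have hEc : ∀ N, D ≤ N → ∑ p ∈ pr N, E p = ∑ p ∈ pr D, E p := by
    intro N hN
    symm
    apply Finset.sum_subset
    · intro p hp
      rw [pr, Finset.mem_filter, Finset.mem_range] at hp ⊢
      exact ⟨by omega, hp.2⟩
    · intro p hp hp'
      rw [pr, Finset.mem_filter, Finset.mem_range] at hp hp'
      apply hE0 p hp.2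
      intro hpD
      exact hp' ⟨Nat.lt_succ_of_le (Nat.le_of_dvd hD hpD), hp.2⟩
  have hsum : ∀ N, ∑ p ∈ pr N, (A p : ℝ) =
      (∑ g ∈ S, ∑ p ∈ pr N, (xp L g p : ℝ)) / h + ∑ p ∈ pr N, E p := by
    intro N
    rw [Finset.sum_comm, Finset.sum_div, ← Finset.sum_add_distrib]
    apply Finset.sum_congr rfl
    intro p _
    simp only [hE, hB]
    ring
  have hlim1 : Tendsto (fun N : ℕ => (∑ g ∈ S, (∑ p ∈ pr N, (xp L g p : ℝ)) /
      (Nat.primeCounting N : ℝ)) / h) atTop (𝓝 ((S.card : ℝ) / (h : ℝ))) := by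
    have : Tendsto (fun N : ℕ => (∑ g ∈ S, (∑ p ∈ pr N, (xp L g p : ℝ)) /
      (Nat.primeCounting N : ℝ))) atTop (𝓝 (∑ g ∈ S, (1 : ℝ))) :=
      tendsto_finset_sum _ fun g _ => hcheb g
    rw [Finset.sum_const, nsmul_eq_mul, mul_one] at this
    exact this.div_const _
  have hlim2 := const_div_pi (∑ p ∈ pr D, E p)
  have hlim3 : Tendsto (fun N : ℕ => (R N : ℝ) / (Nat.primeCounting N : ℝ)) atTop (𝓝 0) := by
    have h0 : Tendsto (fun N : ℕ => (Module.finrank ℚ K : ℝ) *
        ((Nat.sqrt N + 1 : ℝ) / (Nat.primeCounting N : ℝ))) atTop (𝓝 0) := by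
      simpa using sqrt_div_pi.const_mul (Module.finrank ℚ K : ℝ)
    refine squeeze_zero (fun N => by positivity) (fun N => ?_) h0
    rw [mul_div_assoc']
    gcongr
    exact_mod_cast hR1 N
  have hall := (hlim1.add hlim2).add hlim3
  rw [add_zero, add_zero] at hall
  refine hall.congr' ?_
  filter_upwards [eventually_ge_atTop D] with N hN
  unfold dens
  rw [hR2 N]
  push_cast
  rw [hsum N, hEc N hN, add_div, add_div]
  congr 2
  rw [div_right_comm, ← Finset.sum_div]

end prim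

end Pool.Agent.W352.ChAbs
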