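import Pool.Agent.H21.L.R_seed8.W401.Cheb.AbsDefs

/-! Existence of Frobenius elements of the absolute Galois group at a maximal ideal. -/

set_option autoImplicit false
set_option linter.all false

namespace Pool.Agent.W352.ChAbs

open NumberField Filter Topology IsDedekindDomain
open Pool.Agent.W401.Cheb

variable {K : Type} [Field K] [NumberField K]

theorem coe_smul (σ : GK K) (x : 𝓞 (AlgebraicClosure K)) :
    ((σ • x : 𝓞 (AlgebraicClosure K)) : AlgebraicClosure K) = σ (x : AlgebraicClosure K) := rfl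

instance inst_comm : SMulCommClass (GK K) (𝓞 K) (𝓞 (AlgebraicClosure K)) where
  smul_comm σ a x := by
    apply RingOfIntegers.ext
    rw [coe_smul]
    simp only [Algebra.smul_def, map_mul]
    exact congrArg₂ (· * ·) (σ.commutes (a : K)) rfl

instance inst_inv : Algebra.IsInvariant (𝓞 K) (𝓞 (AlgebraicClosure K)) (GK K) where
  isInvariant x hx := by
    have h : (x : AlgebraicClosure K) ∈ Set.range (algebraMap K (AlgebraicClosure K)) := by
      rw [InfiniteGalois.mem_range_algebraMap_iff_fixed]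
      intro σ
      have := congrArg (fun y : 𝓞 (AlgebraicClosure K) => (y : AlgebraicClosure K)) (hx σ)
      exact this
    obtain ⟨k, hk⟩ := h
    have hint : IsIntegral ℤ k := by
      have h1 : IsIntegral ℤ (x : AlgebraicClosure K) := x.isIntegral_coe
      rw [← hk] at h1
      exact (isIntegral_algebraMap_iff (algebraMap K (AlgebraicClosure K)).injective).mp h1
    refine ⟨⟨k, hint⟩, ?_⟩
    apply RingOfIntegers.ext
    exact hk

theorem exists_frob (v : HeightOneSpectrum (𝓞 K)) (Q : Ideal (𝓞 (AlgebraicClosure K)))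
    [hQ : Q.IsMaximal]
    (hQv : Q.comap (algebraMap (𝓞 K) (𝓞 (AlgebraicClosure K))) = v.asIdeal) :
    ∃ σ : GK K, ∀ x : 𝓞 (AlgebraicClosure K), σ • x - x ^ Ideal.absNorm v.asIdeal ∈ Q := by
  letI : TopologicalSpace (𝓞 (AlgebraicClosure K)) := ⊥
  haveI : DiscreteTopology (𝓞 (AlgebraicClosure K)) := ⟨rfl⟩
  haveI : ContinuousSMul (GK K) (𝓞 (AlgebraicClosure K)) := by
    rw [continuousSMul_iff_stabilizer_isOpen]
    intro x
    have := stabilizer_isOpen_of_isIntegral (K := K) (L := AlgebraicClosure K) (x : AlgebraicClosure K)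
    convert this using 1
    ext σ
    simp only [SetLike.mem_coe, MulAction.mem_stabilizer_iff]
    constructor
    · intro h
      have := congrArg (fun y : 𝓞 (AlgebraicClosure K) => (y : AlgebraicClosure K)) h
      exact this
    · intro h
      exact RingOfIntegers.ext h
  haveI : Q.LiesOver v.asIdeal := ⟨hQv.symm⟩
  haveI := v.isPrime
  haveI : v.asIdeal.IsMaximal := v.isMaximal
  letI := Ideal.Quotient.field v.asIdeal
  letI := Ideal.Quotient.field Q
  have := Algebra.IsInvariant.isIntegral_of_profinite (A := 𝓞 K) (B := 𝓞 (AlgebraicClosure K))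
    (G := GK K)
  haveI : Finite (𝓞 K ⧸ v.asIdeal) := Ideal.finiteQuotientOfFreeOfNeBot _ v.ne_bot
  cases nonempty_fintype (𝓞 K ⧸ v.asIdeal)
  obtain ⟨p, hc⟩ := CharP.exists (𝓞 K ⧸ v.asIdeal)
  obtain ⟨k, hp, hk⟩ := FiniteField.card (𝓞 K ⧸ v.asIdeal) p
  haveI := Fact.mk hp
  haveI : Algebra.IsAlgebraic (𝓞 K ⧸ v.asIdeal) (𝓞 (AlgebraicClosure K) ⧸ Q) := inferInstance
  haveI : PerfectField (𝓞 (AlgebraicClosure K) ⧸ Q) :=
    Algebra.IsAlgebraic.perfectField (𝓞 K ⧸ v.asIdeal)
  have := CharP.of_ringHom_of_ne_zero (algebraMap (𝓞 K ⧸ v.asIdeal) (𝓞 (AlgebraicClosure K) ⧸ Q)) p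
    hp.ne_zero
  have : ExpChar (𝓞 (AlgebraicClosure K) ⧸ Q) p := .prime hp
  let l : (𝓞 (AlgebraicClosure K) ⧸ Q) ≃ₐ[𝓞 K ⧸ v.asIdeal] 𝓞 (AlgebraicClosure K) ⧸ Q :=
    { __ := iterateFrobeniusEquiv (𝓞 (AlgebraicClosure K) ⧸ Q) p k,
      commutes' r := by
        dsimp [iterateFrobenius_def]
        rw [← map_pow, ← hk, FiniteField.pow_card] }
  obtain ⟨σ, hσ⟩ := Ideal.Quotient.stabilizerHom_surjective_of_profinite (G := GK K) v.asIdeal Q l
  have hN : Ideal.absNorm v.asIdeal = p ^ (k : ℕ) := by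
    rw [Ideal.absNorm_apply, Submodule.cardQuot_apply, ← hk]
    exact Nat.card_eq_fintype_card
  refine ⟨σ, fun x ↦ ?_⟩
  rw [← Ideal.Quotient.eq, hN]
  exact DFunLike.congr_fun hσ (Ideal.Quotient.mk Q x)

open scoped Pointwise in
theorem exists_smul (Q Q' : Ideal (𝓞 (AlgebraicClosure K))) [hQ : Q.IsMaximal] [hQ' : Q'.IsMaximal]
    (h : Q.comap (algebraMap (𝓞 K) (𝓞 (AlgebraicClosure K))) =
      Q'.comap (algebraMap (𝓞 K) (𝓞 (AlgebraicClosure K)))) :
    ∃ σ : GK K, ∀ x : 𝓞 (AlgebraicClosure K), x ∈ Q ↔ σ • x ∈ Q' := by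
  letI : TopologicalSpace (𝓞 (AlgebraicClosure K)) := ⊥
  haveI : DiscreteTopology (𝓞 (AlgebraicClosure K)) := ⟨rfl⟩
  haveI : ContinuousSMul (GK K) (𝓞 (AlgebraicClosure K)) := by
    rw [continuousSMul_iff_stabilizer_isOpen]
    intro x
    have := stabilizer_isOpen_of_isIntegral (K := K) (L := AlgebraicClosure K) (x : AlgebraicClosure K)
    convert this using 1
    ext σ
    simp only [SetLike.mem_coe, MulAction.mem_stabilizer_iff]
    constructor
    · intro h
      have := congrArg (fun y : 𝓞 (AlgebraicClosure K) => (y : AlgebraicClosure K)) h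
      exact this
    · intro h
      exact RingOfIntegers.ext h
  obtain ⟨g, hg⟩ := Algebra.IsInvariant.exists_smul_of_under_eq_of_profinite (A := 𝓞 K)
    (G := GK K) Q Q' h
  refine ⟨g, fun x => ?_⟩
  rw [hg]
  exact Ideal.smul_mem_pointwise_smul_iff.symm

end Pool.Agent.W352.ChAbs
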