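import Pool.Agent.H21.L.R_seed8.W352.ChAbs.Frob

/-! Counting of primes with Frobenius in a given set, for one prime `p`. -/

set_option autoImplicit false
set_option linter.all false

namespace Pool.Agent.W352.ChAbs

open NumberField Filter Topology IsDedekindDomain
open Pool.Agent.W401.Cheb

section fin

variable {p : ℕ} [Fact p.Prime]

/-- two homomorphisms to `F̄_p` with the same kernel, of finite index, differ by a power of
Frobenius -/
theorem eq_frob_pow {R : Type} [CommRing R] (φ ψ : R →+* AlgebraicClosure (ZMod p))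
    (hk : RingHom.ker φ = RingHom.ker ψ) [Finite (R ⧸ RingHom.ker φ)] :
    ∃ i : ℕ, ∀ x, ψ x = φ x ^ p ^ i := by
  set I := RingHom.ker φ with hI
  haveI : I.IsPrime := RingHom.ker_isPrime φ
  haveI : I.IsMaximal := Ideal.Quotient.maximal_of_isField _ (Finite.isField_of_domain (R ⧸ I))
  letI : Field (R ⧸ I) := Ideal.Quotient.field I
  let a : R ⧸ I →+* AlgebraicClosure (ZMod p) := Ideal.Quotient.lift I φ (fun x hx => hx)
  let b : R ⧸ I →+* AlgebraicClosure (ZMod p) := Ideal.Quotient.lift I ψ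
    (fun x hx => by
      have : x ∈ RingHom.ker ψ := hk ▸ hx
      exact this)
  haveI hchar : CharP (R ⧸ I) p := (RingHom.charP_iff a a.injective p).mpr inferInstance
  letI : Algebra (ZMod p) (R ⧸ I) := ZMod.algebra _ p
  letI : Algebra (R ⧸ I) (AlgebraicClosure (ZMod p)) := a.toAlgebra
  haveI : IsScalarTower (ZMod p) (R ⧸ I) (AlgebraicClosure (ZMod p)) :=
    IsScalarTower.of_algebraMap_eq' (Subsingleton.elim _ _)
  let B : R ⧸ I →ₐ[ZMod p] AlgebraicClosure (ZMod p) :=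
    { b with commutes' := fun r => by
              have : (b.comp (algebraMap (ZMod p) (R ⧸ I))) = algebraMap (ZMod p) _ :=
                Subsingleton.elim _ _
              exact congrArg (fun f : ZMod p →+* AlgebraicClosure (ZMod p) => f r) this }
  haveI : Finite (R ⧸ I) := inferInstance
  haveI : Fintype (R ⧸ I) := Fintype.ofFinite _
  haveI : Normal (ZMod p) (R ⧸ I) := inferInstance
  let γ : Gal((R ⧸ I)/(ZMod p)) := B.restrictNormal' (R ⧸ I)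
  obtain ⟨i, hi⟩ := (FiniteField.bijective_frobeniusAlgEquivOfAlgebraic_pow (ZMod p) (R ⧸ I)).2 γ
  refine ⟨i, fun x => ?_⟩
  have h1 : a (γ (Ideal.Quotient.mk I x)) = b (Ideal.Quotient.mk I x) :=
    AlgHom.restrictNormal_commutes B (R ⧸ I) (Ideal.Quotient.mk I x)
  have h2 : γ (Ideal.Quotient.mk I x) = (Ideal.Quotient.mk I x) ^ p ^ (i : ℕ) := by
    rw [← hi]
    rw [AlgEquiv.coe_pow, FiniteField.coe_frobeniusAlgEquivOfAlgebraic_iterate, ZMod.card]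
  rw [h2, map_pow] at h1
  exact h1.symm

end fin

section main

variable (K : Type) [Field K] [NumberField K] (L : Type) [Field L] [NumberField L] [IsGalois ℚ L]
  [Algebra K L] [Algebra L (AlgebraicClosure K)] [IsScalarTower K L (AlgebraicClosure K)]

/-- restriction to `L` -/
noncomputable def res : GK K →* Gal(L/ℚ) :=
  (AlgEquiv.restrictNormalHom (F := ℚ) (K₁ := AlgebraicClosure K) L).comp
    (AlgEquiv.restrictScalarsHom ℚ)

theorem res_apply (σ : GK K) (x : L) :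
    algebraMap L (AlgebraicClosure K) (res K L σ x) = σ (algebraMap L (AlgebraicClosure K) x) :=
  AlgEquiv.restrictNormal_commutes (σ.restrictScalars ℚ) L x

theorem algMap_coe {A B : Type} [Field A] [Field B] [Algebra A B] (x : 𝓞 A) :
    ((algebraMap (𝓞 A) (𝓞 B) x : 𝓞 B) : B) = algebraMap A B (x : A) := rfl

theorem res_smul (σ : GK K) (x : 𝓞 L) :
    algebraMap (𝓞 L) (𝓞 (AlgebraicClosure K)) (res K L σ • x) =
      σ • algebraMap (𝓞 L) (𝓞 (AlgebraicClosure K)) x := by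
  apply RingOfIntegers.ext
  exact res_apply K L σ x

theorem res_smul_K (σ : GK K) (x : 𝓞 K) :
    res K L σ • (algebraMap (𝓞 K) (𝓞 L) x) = algebraMap (𝓞 K) (𝓞 L) x := by
  apply RingOfIntegers.ext
  apply (algebraMap L (AlgebraicClosure K)).injective
  have h := res_apply K L σ (algebraMap K L (x : K))
  rw [← IsScalarTower.algebraMap_apply K L (AlgebraicClosure K), AlgEquiv.commutes] at h
  rw [IsScalarTower.algebraMap_apply K L (AlgebraicClosure K)] at h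
  exact h

variable {p : ℕ} [hp : Fact p.Prime]

abbrev Fb (p : ℕ) [Fact p.Prime] : Type := AlgebraicClosure (ZMod p)

variable {K L}

/-- restriction of `φ` to `𝓞 K` -/
noncomputable def rk (φ : 𝓞 L →+* Fb p) : Ideal (𝓞 K) :=
  RingHom.ker (φ.comp (algebraMap (𝓞 K) (𝓞 L)))

theorem mem_rk (φ : 𝓞 L →+* Fb p) (x : 𝓞 K) :
    x ∈ (rk φ : Ideal (𝓞 K)) ↔ φ (algebraMap (𝓞 K) (𝓞 L) x) = 0 := Iff.rfl

instance rk_prime (φ : 𝓞 L →+* Fb p) : (rk φ : Ideal (𝓞 K)).IsPrime := RingHom.ker_isPrime _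

theorem rk_ne_bot (φ : 𝓞 L →+* Fb p) : (rk φ : Ideal (𝓞 K)) ≠ ⊥ := by
  intro h
  have : ((p : ℕ) : 𝓞 K) ∈ (rk φ : Ideal (𝓞 K)) := by
    rw [mem_rk]; simp
  rw [h, Ideal.mem_bot] at this
  exact hp.out.ne_zero (by exact_mod_cast this)

theorem ker_ne_bot (φ : 𝓞 L →+* Fb p) : RingHom.ker φ ≠ ⊥ := by
  intro h
  have : ((p : ℕ) : 𝓞 L) ∈ RingHom.ker φ := by
    rw [RingHom.mem_ker]; simp
  rw [h, Ideal.mem_bot] at this
  exact hp.out.ne_zero (by exact_mod_cast this)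

/-- norm of the kernel -/
theorem norm_rk (φ : 𝓞 L →+* Fb p) (τ : GK K) (hφ : HasFrob p φ (res K L τ)) :
    Ideal.absNorm (rk φ : Ideal (𝓞 K)) = p := by
  rw [Ideal.absNorm_apply, Submodule.cardQuot_apply]
  let f : 𝓞 K →+* Fb p := φ.comp (algebraMap (𝓞 K) (𝓞 L))
  have h1 : Nat.card (𝓞 K ⧸ (rk φ : Ideal (𝓞 K))) = Nat.card f.range :=
    Nat.card_congr (RingHom.quotientKerEquivRange f).toEquiv
  rw [h1]
  have hroots : {y : Fb p | y ^ p = y}.Finite ∧ {y : Fb p | y ^ p = y}.ncard ≤ p := by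
    classical
    have hne : (Polynomial.X ^ p - Polynomial.X : Polynomial (Fb p)) ≠ 0 :=
      FiniteField.X_pow_card_sub_X_ne_zero _ hp.out.one_lt
    have hset : {y : Fb p | y ^ p = y} =
        ((Polynomial.X ^ p - Polynomial.X : Polynomial (Fb p)).roots.toFinset : Set (Fb p)) := by
      ext y
      simp only [Set.mem_ofPred_eq, Finset.mem_coe, Multiset.mem_toFinset,
        Polynomial.mem_roots hne, Polynomial.IsRoot.def, Polynomial.eval_sub, Polynomial.eval_pow,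
        Polynomial.eval_X, sub_eq_zero]
    rw [hset]
    refine ⟨Finset.finite_toSet _, ?_⟩
    rw [Set.ncard_coe_finset]
    calc _ ≤ Multiset.card _ := Multiset.toFinset_card_le _
      _ ≤ _ := Polynomial.card_roots' _
      _ = p := FiniteField.X_pow_card_sub_X_natDegree_eq _ hp.out.one_lt
  have hsub : (f.range : Set (Fb p)) ⊆ {y : Fb p | y ^ p = y} := by
    rintro y ⟨x, rfl⟩
    have := hφ (algebraMap (𝓞 K) (𝓞 L) x)
    rw [res_smul_K] at this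
    exact this.symm
  have hsup : Set.range (algebraMap (ZMod p) (Fb p)) ⊆ (f.range : Set (Fb p)) := by
    rintro y ⟨x, rfl⟩
    refine ⟨((x.val : ℕ) : 𝓞 K), ?_⟩
    rw [map_natCast]
    conv_rhs => rw [← ZMod.natCast_zmod_val x]
    rw [map_natCast]
  have hcard : (Set.range (algebraMap (ZMod p) (Fb p))).ncard = p := by
    rw [← Set.image_univ, Set.ncard_image_of_injective _ (algebraMap (ZMod p) (Fb p)).injective,
      Set.ncard_univ, Nat.card_zmod]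
  have e1 : Nat.card f.range = (f.range : Set (Fb p)).ncard := rfl
  rw [e1]
  apply le_antisymm
  · exact (Set.ncard_le_ncard hsub hroots.1).trans hroots.2
  · calc p = (Set.range (algebraMap (ZMod p) (Fb p))).ncard := hcard.symm
      _ ≤ _ := Set.ncard_le_ncard hsup (hroots.1.subset hsub)

/-- the prime below `φ` -/
noncomputable def vk (φ : 𝓞 L →+* Fb p) : HeightOneSpectrum (𝓞 K) :=
  ⟨rk φ, inferInstance, rk_ne_bot φ⟩

theorem exists_over (φ : 𝓞 L →+* Fb p) : ∃ Q : Ideal (𝓞 (AlgebraicClosure K)), Q.IsMaximal ∧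
    Q.comap (algebraMap (𝓞 L) (𝓞 (AlgebraicClosure K))) = RingHom.ker φ ∧
    Q.comap (algebraMap (𝓞 K) (𝓞 (AlgebraicClosure K))) = rk φ := by
  haveI : (RingHom.ker φ).IsPrime := RingHom.ker_isPrime φ
  haveI : (RingHom.ker φ).IsMaximal := Ideal.IsPrime.isMaximal inferInstance (ker_ne_bot φ)
  haveI : Algebra.IsIntegral (𝓞 L) (𝓞 (AlgebraicClosure K)) := by
    constructor
    intro x
    have h := RingOfIntegers.isIntegral x
    exact h.tower_top
  obtain ⟨Q, hQ, hQ'⟩ := Ideal.exists_ideal_over_maximal_of_isIntegral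
    (R := 𝓞 L) (S := 𝓞 (AlgebraicClosure K)) (RingHom.ker φ) (by
      rw [(RingHom.injective_iff_ker_eq_bot _).mp
        (FaithfulSMul.algebraMap_injective (𝓞 L) (𝓞 (AlgebraicClosure K)))]
      exact bot_le)
  refine ⟨Q, hQ, hQ', ?_⟩
  rw [IsScalarTower.algebraMap_eq (𝓞 K) (𝓞 L) (𝓞 (AlgebraicClosure K)), ← Ideal.comap_comap, hQ']
  rfl

theorem hasFrob_of (φ : 𝓞 L →+* Fb p) (Q : Ideal (𝓞 (AlgebraicClosure K)))
    (hQ : Q.comap (algebraMap (𝓞 L) (𝓞 (AlgebraicClosure K))) = RingHom.ker φ)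
    (σ : GK K) (hσ : ∀ x : 𝓞 (AlgebraicClosure K), σ • x - x ^ p ∈ Q) :
    HasFrob p φ (res K L σ) := by
  intro x
  have h := hσ (algebraMap (𝓞 L) (𝓞 (AlgebraicClosure K)) x)
  rw [← res_smul, ← map_pow, ← map_sub, ← Ideal.mem_comap, hQ, RingHom.mem_ker, map_sub, map_pow,
    sub_eq_zero] at h
  exact h

variable (U : Subgroup (GK K)) (C : Set (GK K)) (hU : (res K L).ker ≤ U)
  (hC : ∀ σ ∈ C, ∀ τ : GK K, τ * σ * τ⁻¹ ∈ C) (hCU : ∀ σ ∈ C, ∀ u ∈ U, σ * u ∈ C)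
  (hT : ∀ φ φ' : 𝓞 L →+* Fb p, ∃! σ : Gal(L/ℚ), ∀ x, φ' x = φ (σ • x))

include hT in
theorem frob_unique (φ : 𝓞 L →+* Fb p) (g g' : Gal(L/ℚ)) (hg : HasFrob p φ g)
    (hg' : HasFrob p φ g') : g = g' :=
  (hT φ ((frobenius (Fb p) p).comp φ)).unique (fun x => (hg x).symm) (fun x => (hg' x).symm)

include hU hCU in
theorem mem_C (σ τ : GK K) (hσ : σ ∈ C) (h : res K L σ = res K L τ) : τ ∈ C := by
  have : σ⁻¹ * τ ∈ U := hU (by rw [MonoidHom.mem_ker, map_mul, map_inv, h]; simp)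
  have := hCU σ hσ _ this
  rwa [mul_inv_cancel_left] at this

include hU hCU hT in
/-- (a) -/
theorem fact_a (φ : 𝓞 L →+* Fb p) (hφ : ∃ g ∈ (res K L) '' C, HasFrob p φ g) :
    Ideal.absNorm (vk (K := K) φ).asIdeal = p ∧ ∃ σ ∈ C, IsFrob (vk (K := K) φ) σ := by
  obtain ⟨g, ⟨c, hc, rfl⟩, hg⟩ := hφ
  have hN : Ideal.absNorm (vk (K := K) φ).asIdeal = p := norm_rk φ c hg
  refine ⟨hN, ?_⟩
  obtain ⟨Q, hQ, hQ1, hQ2⟩ := exists_over (K := K) φ
  obtain ⟨s, hs⟩ := exists_frob (vk (K := K) φ) Q hQ2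
  refine ⟨s, ?_, Q, hQ, hQ2, hs⟩
  rw [hN] at hs
  have h1 := hasFrob_of φ Q hQ1 s hs
  exact mem_C U C hU hCU c s hc (frob_unique hT φ _ _ hg h1)

/-- (b) -/
theorem fact_b (v : HeightOneSpectrum (𝓞 K)) (hv : Ideal.absNorm v.asIdeal = p) (σ : GK K)
    (hσ : IsFrob v σ) : ∃ φ : 𝓞 L →+* Fb p, HasFrob p φ (res K L σ) ∧ vk φ = v := by
  obtain ⟨Q, hQ, hQv, hQf⟩ := hσ
  rw [hv] at hQf
  set q : Ideal (𝓞 L) := Q.comap (algebraMap (𝓞 L) (𝓞 (AlgebraicClosure K))) with hq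
  haveI : q.IsPrime := Ideal.comap_isPrime _ _
  have hpv : ((p : ℕ) : 𝓞 K) ∈ v.asIdeal := by
    have := Ideal.absNorm_mem v.asIdeal
    rwa [hv] at this
  have hpq : ((p : ℕ) : 𝓞 L) ∈ q := by
    rw [← hQv, Ideal.mem_comap, map_natCast] at hpv
    rw [hq, Ideal.mem_comap, map_natCast]
    exact hpv
  have hqb : q ≠ ⊥ := by
    intro h
    rw [h, Ideal.mem_bot] at hpq
    exact hp.out.ne_zero (by exact_mod_cast hpq)
  haveI : q.IsMaximal := Ideal.IsPrime.isMaximal inferInstance hqb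
  letI : Field (𝓞 L ⧸ q) := Ideal.Quotient.field q
  haveI : Finite (𝓞 L ⧸ q) := Ideal.finiteQuotientOfFreeOfNeBot _ hqb
  haveI : CharP (𝓞 L ⧸ q) p := by
    rw [CharP.charP_iff_prime_eq_zero hp.out]
    rw [← map_natCast (Ideal.Quotient.mk q), Ideal.Quotient.eq_zero_iff_mem]
    exact hpq
  letI : Algebra (ZMod p) (𝓞 L ⧸ q) := ZMod.algebra _ p
  let a : (𝓞 L ⧸ q) →ₐ[ZMod p] Fb p := IsAlgClosed.lift
  let φ : 𝓞 L →+* Fb p := (a : (𝓞 L ⧸ q) →+* Fb p).comp (Ideal.Quotient.mk q)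
  have hker : RingHom.ker φ = q := by
    ext x
    rw [RingHom.mem_ker]
    change a (Ideal.Quotient.mk q x) = 0 ↔ _
    rw [map_eq_zero_iff a a.toRingHom.injective, Ideal.Quotient.eq_zero_iff_mem]
  refine ⟨φ, hasFrob_of φ Q (by rw [hker]) σ hQf, ?_⟩
  apply HeightOneSpectrum.ext
  change rk φ = v.asIdeal
  rw [← hQv, IsScalarTower.algebraMap_eq (𝓞 K) (𝓞 L) (𝓞 (AlgebraicClosure K)), ← Ideal.comap_comap,
    ← hq, ← hker]
  rfl

/-- the composite with a Galois element -/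
noncomputable def act (φ : 𝓞 L →+* Fb p) (g : Gal(L/ℚ)) : 𝓞 L →+* Fb p :=
  φ.comp (MulSemiringAction.toRingHom Gal(L/ℚ) (𝓞 L) g)

theorem act_apply (φ : 𝓞 L →+* Fb p) (g : Gal(L/ℚ)) (x : 𝓞 L) : act φ g x = φ (g • x) := rfl

theorem vk_act (φ : 𝓞 L →+* Fb p) (τ : GK K) : vk (K := K) (act φ (res K L τ)) = vk φ := by
  apply HeightOneSpectrum.ext
  change rk _ = rk _
  ext x
  rw [mem_rk, mem_rk, act_apply, res_smul_K]

theorem hasFrob_act (φ : 𝓞 L →+* Fb p) (g h : Gal(L/ℚ)) (hg : HasFrob p φ g) :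
    HasFrob p (act φ h) (h⁻¹ * g * h) := by
  intro x
  rw [act_apply, act_apply, ← hg, smul_smul, smul_smul]
  congr 2
  group

theorem hasFrob_pow (φ : 𝓞 L →+* Fb p) (g : Gal(L/ℚ)) (hg : HasFrob p φ g) (i : ℕ) (x : 𝓞 L) :
    φ (g ^ i • x) = φ x ^ p ^ i := by
  induction i generalizing x with
  | zero => simp
  | succ n ih => rw [pow_succ, mul_smul, ih, hg, ← pow_mul, ← pow_succ']

/-- (c) -/
theorem fact_c (φ φ' : 𝓞 L →+* Fb p) (c : GK K) (hφ : HasFrob p φ (res K L c))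
    (hv : vk (K := K) φ = vk φ') : ∃ τ : GK K, φ' = act φ (res K L τ) := by
  obtain ⟨Q, hQ, hQ1, hQ2⟩ := exists_over (K := K) φ
  obtain ⟨Q', hQ', hQ1', hQ2'⟩ := exists_over (K := K) φ'
  have hrk : (rk φ : Ideal (𝓞 K)) = rk φ' := congrArg HeightOneSpectrum.asIdeal hv
  obtain ⟨τ, hτ⟩ := exists_smul (K := K) Q Q' (by rw [hQ2, hQ2', hrk])
  -- `φ' ∘ τ` has the same kernel as `φ`
  have hker : RingHom.ker φ = RingHom.ker (act φ' (res K L τ)) := by
    ext x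
    rw [RingHom.mem_ker (f := act φ' (res K L τ)), act_apply, ← RingHom.mem_ker, ← hQ1', ← hQ1,
      Ideal.mem_comap, Ideal.mem_comap, res_smul]
    exact hτ _
  haveI : Finite (𝓞 L ⧸ RingHom.ker φ) := Ideal.finiteQuotientOfFreeOfNeBot _ (ker_ne_bot φ)
  obtain ⟨i, hi⟩ := eq_frob_pow φ (act φ' (res K L τ)) hker
  refine ⟨c ^ i * τ⁻¹, ?_⟩
  ext x
  have h1 := hi ((res K L τ)⁻¹ • x)
  rw [act_apply, smul_inv_smul] at h1
  rw [h1, act_apply, map_mul, map_pow, map_inv, mul_smul, hasFrob_pow φ _ hφ]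

include hU hC hCU hT in
/-- the count for one prime -/
theorem count_p :
    Nat.card (res K L).range *
      Nat.card {v : HeightOneSpectrum (𝓞 K) // Ideal.absNorm v.asIdeal = p ∧ ∃ σ ∈ C, IsFrob v σ} =
    Nat.card {φ : 𝓞 L →+* Fb p // ∃ g ∈ (res K L) '' C, HasFrob p φ g} := by
  classical
  have hb : ∀ v : {v : HeightOneSpectrum (𝓞 K) //
      Ideal.absNorm v.asIdeal = p ∧ ∃ σ ∈ C, IsFrob v σ},
      ∃ φ : 𝓞 L →+* Fb p, (∃ g ∈ (res K L) '' C, HasFrob p φ g) ∧ vk φ = v.1 := by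
    rintro ⟨v, hv, σ, hσ, hf⟩
    obtain ⟨φ, h1, h2⟩ := fact_b (L := L) v hv σ hf
    exact ⟨φ, ⟨_, ⟨σ, hσ, rfl⟩, h1⟩, h2⟩
  choose ψ hψ1 hψ2 using hb
  rw [mul_comm, ← Nat.card_prod]
  refine Nat.card_congr (Equiv.ofBijective (fun z => ⟨act (ψ z.1) z.2.1, ?_⟩) ⟨?_, ?_⟩)
  · obtain ⟨g, ⟨c, hc, rfl⟩, hg⟩ := hψ1 z.1
    obtain ⟨τ, hτ⟩ := z.2.2
    refine ⟨_, ⟨τ⁻¹ * c * τ, ?_, rfl⟩, ?_⟩
    · have := hC c hc τ⁻¹
      rwa [inv_inv] at this
    · have := hasFrob_act _ _ (res K L τ) hg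
      rw [← hτ, map_mul, map_mul, map_inv]
      exact this
  · rintro ⟨v, h⟩ ⟨v', h'⟩ heq
    have heq' : act (ψ v) h.1 = act (ψ v') h'.1 := congrArg Subtype.val heq
    obtain ⟨τ, hτ⟩ := h.2
    obtain ⟨τ', hτ'⟩ := h'.2
    have hv : v = v' := by
      apply Subtype.ext
      rw [← hψ2 v, ← hψ2 v', ← vk_act (K := K) (ψ v) τ, ← vk_act (K := K) (ψ v') τ', hτ, hτ', heq']
    subst hv
    have : h = h' := by
      apply Subtype.ext
      exact (hT (ψ v) (act (ψ v) h.1)).unique (fun x => rfl) (fun x => by rw [heq']; rfl)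
    rw [this]
  · rintro ⟨φ, hφ⟩
    have ha := fact_a (K := K) U C hU hCU hT φ hφ
    obtain ⟨g, ⟨c, hc, rfl⟩, hg⟩ := hψ1 ⟨vk φ, ha⟩
    obtain ⟨τ, hτ⟩ := fact_c (K := K) (ψ ⟨vk φ, ha⟩) φ c hg (hψ2 ⟨vk φ, ha⟩)
    exact ⟨⟨⟨vk φ, ha⟩, ⟨res K L τ, τ, rfl⟩⟩, Subtype.ext hτ.symm⟩

include hT in
theorem count_sum [Finite (𝓞 L →+* Fb p)] (S : Finset Gal(L/ℚ)) :
    Nat.card {φ : 𝓞 L →+* Fb p // ∃ g ∈ S, HasFrob p φ g} = ∑ g ∈ S, xp L g p := by
  classical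
  have h1 : ∀ g, xp L g p = Nat.card {φ : 𝓞 L →+* Fb p // HasFrob p φ g} := by
    intro g
    unfold xp
    rw [dif_pos hp.out]
  simp only [h1]
  haveI := Fintype.ofFinite (𝓞 L →+* Fb p)
  rw [← Finset.sum_coe_sort S, ← Nat.card_sigma (α := S)
    (β := fun g => {φ : 𝓞 L →+* Fb p // HasFrob p φ g})]
  refine Nat.card_congr (Equiv.ofBijective (fun z => ⟨z.2.1, z.1.1, z.1.2, z.2.2⟩) ⟨?_, ?_⟩).symm
  · rintro ⟨g, φ, hφ⟩ ⟨g', φ', hφ'⟩ h
    have h' : φ = φ' := congrArg Subtype.val h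
    subst h'
    have : g = g' := Subtype.ext (frob_unique hT φ _ _ hφ hφ')
    subst this
    rfl
  · rintro ⟨φ, g, hg, hφ⟩
    exact ⟨⟨⟨g, hg⟩, ⟨φ, hφ⟩⟩, rfl⟩

include hU hC hCU hT in
theorem count_main (hfin : Nat.card (𝓞 L →+* Fb p) = Nat.card Gal(L/ℚ)) :
    Nat.card (res K L).range *
      Nat.card {v : HeightOneSpectrum (𝓞 K) // Ideal.absNorm v.asIdeal = p ∧ ∃ σ ∈ C, IsFrob v σ} =
    ∑ g ∈ (Set.toFinite ((res K L) '' C)).toFinset, xp L g p := by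
  haveI : Finite (𝓞 L →+* Fb p) := by
    apply Nat.finite_of_card_ne_zero
    rw [hfin]
    exact Nat.card_pos.ne'
  rw [count_p U C hU hC hCU hT, ← count_sum hT]
  simp only [Set.Finite.mem_toFinset]

end main

end Pool.Agent.W352.ChAbs
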